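import Pool.Agent.N343.LT.Stm2

/-!
Project LT (helper343), part LT17: complete tripartite graphs with different parts.
-/

set_option autoImplicit false

namespace Pool.Agent.N768.LT.AAN

open Pool.Agent.N343.LT Pool.Agent.N343.LT.Defs

theorem size_le {n a : ℕ} (ha : a ≤ n) (i : Fin 3) : (![a, n, n] : Fin 3 → ℕ) i ≤ n := by
  fin_cases i
  · exact ha
  · exact le_rfl
  · exact le_rfl

/-- the neighbours of a vertex of the first part -/
def nb (n a : ℕ) (q : Bool × Fin n) : Σ i : Fin 3, Fin ((![a, n, n] : Fin 3 → ℕ) i) :=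
  if q.1 then ⟨1, q.2⟩ else ⟨2, q.2⟩

theorem nb_inj (n a : ℕ) : Function.Injective (nb n a) := by
  have key : ∀ q : Bool × Fin n, ((nb n a q).1, ((nb n a q).2 : ℕ)) =
      ((if q.1 then (1 : Fin 3) else 2), (q.2 : ℕ)) := by
    rintro ⟨b, x⟩
    cases b <;> rfl
  intro q q' h
  have h1 : ((nb n a q).1, ((nb n a q).2 : ℕ)) = ((nb n a q').1, ((nb n a q').2 : ℕ)) := by
    rw [h]
  rw [key, key] at h1
  obtain ⟨b, x⟩ := q
  obtain ⟨c, y⟩ := q'
  have h2 := (Prod.mk.injEq _ _ _ _).mp h1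
  have h3 : x = y := Fin.ext h2.2
  have h4 : (if b then (1 : Fin 3) else 2) = (if c then (1 : Fin 3) else 2) := h2.1
  have h5 : b = c := by
    revert h4
    cases b <;> cases c <;> decide
  rw [h3, h5]

theorem nb_fst (n a : ℕ) (q : Bool × Fin n) : (nb n a q).1 ≠ 0 := by
  obtain ⟨b, x⟩ := q
  cases b
  · show (2 : Fin 3) ≠ 0
    decide
  · show (1 : Fin 3) ≠ 0
    decide

theorem not_col {n a : ℕ} (ha1 : 1 ≤ a) (ha : a ≤ n) :
    ¬ (Tripartite a n n).lineGraph.Colorable (2 * n - 1) := by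
  rintro ⟨c⟩
  obtain ⟨v, hv⟩ : ∃ v : Σ i : Fin 3, Fin ((![a, n, n] : Fin 3 → ℕ) i), v.1 = 0 :=
    ⟨⟨0, (⟨0, ha1⟩ : Fin a)⟩, rfl⟩
  have hadj : ∀ q : Bool × Fin n, (Tripartite a n n).Adj v (nb n a q) := by
    intro q
    show v.1 ≠ (nb n a q).1
    rw [hv]
    exact (nb_fst n a q).symm
  have hinj : Function.Injective (fun q : Bool × Fin n =>
      c ⟨s(v, nb n a q), (Tripartite a n n).mem_edgeSet.2 (hadj q)⟩) := by
    intro q q' h
    by_contra hne
    have h2 : (Tripartite a n n).lineGraph.Adj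
        ⟨s(v, nb n a q), (Tripartite a n n).mem_edgeSet.2 (hadj q)⟩
        ⟨s(v, nb n a q'), (Tripartite a n n).mem_edgeSet.2 (hadj q')⟩ := by
      rw [SimpleGraph.lineGraph_adj_iff_exists]
      refine ⟨?_, v, Sym2.mem_mk_left _ _, Sym2.mem_mk_left _ _⟩
      intro he
      have h3 := congrArg Subtype.val he
      simp only at h3
      rw [Sym2.eq_iff] at h3
      rcases h3 with ⟨-, h3⟩ | ⟨h3, -⟩
      · exact hne (nb_inj n a h3)
      · exact nb_fst n a q' (by rw [← h3, hv])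
    exact c.valid h2 h
  have h3 := Fintype.card_le_of_injective _ hinj
  rw [Fintype.card_prod, Fintype.card_bool, Fintype.card_fin, Fintype.card_fin] at h3
  omega

theorem main : S_AAN := by
  intro n a ha1 ha hsub
  refine hsub _ (Tripartite a n n) (fun x => (x.1, Fin.castLE (size_le ha x.1) x.2)) ?_ ?_
    (not_col ha1 ha)
  · rintro ⟨i, x⟩ ⟨j, y⟩ h
    simp only [Prod.mk.injEq] at h
    obtain ⟨h1, h2⟩ := h
    subst h1
    have h3 : x = y := Fin.castLE_injective _ h2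
    rw [h3]
  · intro u v huv
    exact huv

end Pool.Agent.N768.LT.AAN
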